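import Pool.Agent.U479.VB.Point
import Pool.Agent.U479.VA.Final

set_option autoImplicit false

/-! Separation of points and tangent vectors; arbitrary weights. -/

namespace Pool.Agent.U479.VB

open Finset MvPolynomial Pool.Agent.U479.FJ
open Pool.Agent.U479.VA (dd dd_sub dd_C_mul aeval_dual prop_sections)

variable {V κ : Type} [Fintype V] [DecidableEq V] [Fintype κ] {F : Type} [Field F]

/-- the equations assigned to the weights, and the number `e` -/
structure Data (a : V → ℕ) (f : κ → MvPolynomial V F) (φ : V → MvPolynomial V F) (D : V → ℕ)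
    (e : ℕ) : Prop where
  ha : ∀ i, 1 ≤ a i
  hD : ∀ i, 1 ≤ D i
  hφ : ∀ i, 1 < a i → IsWeightedHomogeneous a (φ i) (D i * a i)
  hcoef : ∀ i, 1 < a i → coeff (Finsupp.single i (D i)) (φ i) ≠ 0
  hav : ∀ x : V → F, x ≠ 0 → (∀ i, x i ≠ 0 → 1 < a i) → (∀ i, x i ≠ 0 → eval x (φ i) = 0) →
      ∀ g : ℕ, (∀ i, x i ≠ 0 → g ∣ a i) → g = 1
  he : ∑ i, (D i - 1) * a i ≤ e
  mem : ∀ i, 1 < a i → ∃ j, φ i = f j

theorem base {a : V → ℕ} {f : κ → MvPolynomial V F} {φ : V → MvPolynomial V F} {D : V → ℕ}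
    {e : ℕ} (H : Data a f φ D e) (v : V → F) (hv : v ≠ 0) (hfv : ∀ j, eval v (f j) = 0) :
    ∃ s : MvPolynomial V F, IsWeightedHomogeneous a s e ∧ eval v s ≠ 0 := by
  classical
  obtain ⟨T, -, hTx, -, -, hG3⟩ := VB.exists_good a H.ha φ D H.hD H.hφ H.hcoef H.hav
    (∑ i, (D i - 1) * a i + 1) le_rfl v hv
    (fun i hi => by obtain ⟨j, hj⟩ := H.mem i hi; rw [hj]; exact hfv j)
  have hcast : ((∑ i ∈ T, (D i - 1) * a i : ℕ) : ℤ) = ∑ i ∈ T, ((D i : ℤ) - 1) * a i := by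
    rw [Nat.cast_sum]
    refine sum_congr rfl fun i hi => ?_
    rw [Nat.cast_mul, Nat.cast_sub (H.hD i)]
    simp
  obtain ⟨μ, h2⟩ := hG3 (e : ℤ) (by
    have h1 : ∑ i ∈ T, (D i - 1) * a i ≤ ∑ i, (D i - 1) * a i :=
      sum_le_sum_of_subset (subset_univ T)
    have h2 : ∑ i ∈ T, (D i - 1) * a i ≤ e := h1.trans H.he
    rw [← hcast]
    exact_mod_cast h2)
  obtain ⟨ν, hν⟩ : ∃ ν : V → ℕ, ν = fun l => if l ∈ T then μ l else 0 := ⟨_, rfl⟩
  have h3 : ∑ l, ν l * a l = e := by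
    have h2' : ∑ l ∈ T, μ l * a l = e := by exact_mod_cast h2
    rw [← h2', ← sum_subset (subset_univ T)]
    · exact sum_congr rfl fun l hl => by rw [hν]; beta_reduce; rw [if_pos hl]
    · intro l _ hl
      rw [hν]; beta_reduce; rw [if_neg hl, zero_mul]
  refine ⟨monomial (Finsupp.equivFunOnFinite.symm ν) 1,
    isWeightedHomogeneous_monomial _ _ _ (by rw [weight_eq, ← h3]; rfl), ?_⟩
  rw [eval_monomial, one_mul, Finsupp.prod_fintype _ _ (fun _ => pow_zero _)]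
  refine prod_ne_zero_iff.2 fun l _ => ?_
  show v l ^ ν l ≠ 0
  rw [hν]
  beta_reduce
  by_cases hl : l ∈ T
  · exact pow_ne_zero _ (hTx l hl)
  · rw [if_neg hl, pow_zero]; exact one_ne_zero

theorem points {a : V → ℕ} {f : κ → MvPolynomial V F} {φ : V → MvPolynomial V F} {D : V → ℕ}
    {e : ℕ} (H : Data a f φ D e) (he : ∑ i, (D i - 1) * a i + 1 ≤ e) (v w : V → F) (hv : v ≠ 0) (hw : w ≠ 0)
    (hfv : ∀ j, eval v (f j) = 0) (hfw : ∀ j, eval w (f j) = 0)
    (hsec : ∀ s : MvPolynomial V F, IsWeightedHomogeneous a s e → eval v s = 0 → eval w s = 0) :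
    ∃ t : F, t ≠ 0 ∧ ∀ i, w i = t ^ a i * v i := by
  obtain ⟨c, hc⟩ := prop_sections (a := a) (e := e) (v := v) (fun s => eval w s)
    (fun s t => map_sub _ _ _) (fun c s => by simp) (base H v hv hfv) hsec
  have hc0 : c ≠ 0 := by
    obtain ⟨s, hs, hs'⟩ := base H w hw hfw
    intro h
    apply hs'
    rw [hc s hs, h, zero_mul]
  obtain ⟨t, ht⟩ := VB.core (B := F) a H.ha φ D H.hD H.hφ H.hcoef H.hav e he v hv
    (fun i hi => by obtain ⟨j, hj⟩ := H.mem i hi; rw [hj]; exact hfv j) w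
    (fun i hi => by
      obtain ⟨j, hj⟩ := H.mem i hi
      rw [hj, MvPolynomial.aeval_eq_eval]
      exact hfw j) (Units.mk0 c hc0) (fun s hs => by
        rw [MvPolynomial.aeval_eq_eval]
        exact hc s hs)
  exact ⟨t, t.ne_zero, ht⟩

theorem tangents {a : V → ℕ} {f : κ → MvPolynomial V F} {φ : V → MvPolynomial V F} {D : V → ℕ}
    {e : ℕ} (H : Data a f φ D e) (he : ∑ i, (D i - 1) * a i + 1 ≤ e) (v u : V → F) (hv : v ≠ 0)
    (hfv : ∀ j, eval v (f j) = 0) (hfu : ∀ j, dd v u (f j) = 0)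
    (hsec : ∀ s : MvPolynomial V F, IsWeightedHomogeneous a s e → eval v s = 0 → dd v u s = 0) :
    ∃ τ : F, ∀ i, u i = τ * (a i * v i) := by
  obtain ⟨c, hc⟩ := prop_sections (a := a) (e := e) (v := v) (fun s => dd v u s)
    (fun s t => dd_sub v u s t) (fun c s => dd_C_mul v u c s) (base H v hv hfv) hsec
  have hCu : IsUnit (TrivSqZeroExt.inl 1 + TrivSqZeroExt.inr c : TrivSqZeroExt F F) := by
    rw [TrivSqZeroExt.isUnit_iff_isUnit_fst]
    simp
  obtain ⟨C, hC⟩ := hCu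
  obtain ⟨T, hT⟩ := VB.core (B := TrivSqZeroExt F F) a H.ha φ D H.hD H.hφ H.hcoef H.hav e he v hv
    (fun i hi => by obtain ⟨j, hj⟩ := H.mem i hi; rw [hj]; exact hfv j)
    (fun i => TrivSqZeroExt.inl (v i) + TrivSqZeroExt.inr (u i))
    (fun i hi => by
      obtain ⟨j, hj⟩ := H.mem i hi
      rw [hj, aeval_dual, hfv, hfu, TrivSqZeroExt.inl_zero, TrivSqZeroExt.inr_zero, add_zero])
    C (fun s hs => by
      rw [aeval_dual, hc s hs, hC, TrivSqZeroExt.algebraMap_eq_inl]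
      ext
      · simp
      · simp)
  have hT0 : (T : TrivSqZeroExt F F).fst ≠ 0 := by
    have := (TrivSqZeroExt.isUnit_iff_isUnit_fst.1 T.isUnit)
    exact this.ne_zero
  set t0 := (T : TrivSqZeroExt F F).fst
  set t1 := (T : TrivSqZeroExt F F).snd
  refine ⟨t1 / t0, fun i => ?_⟩
  have h1 := congrArg TrivSqZeroExt.fst (hT i)
  have h2 := congrArg TrivSqZeroExt.snd (hT i)
  rw [TrivSqZeroExt.algebraMap_eq_inl] at h1 h2
  simp only [TrivSqZeroExt.fst_add, TrivSqZeroExt.fst_inl, TrivSqZeroExt.fst_inr, add_zero,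
    TrivSqZeroExt.fst_mul, TrivSqZeroExt.fst_pow] at h1
  simp only [TrivSqZeroExt.snd_add, TrivSqZeroExt.snd_inl, TrivSqZeroExt.snd_inr, zero_add,
    TrivSqZeroExt.snd_mul, TrivSqZeroExt.snd_pow, TrivSqZeroExt.fst_inl,
    MulOpposite.smul_eq_mul_unop, MulOpposite.unop_op, smul_eq_mul, nsmul_eq_mul] at h2
  rw [h2]
  obtain ⟨b, hb⟩ : ∃ b, a i = b + 1 := ⟨a i - 1, by have := H.ha i; omega⟩
  change v i = t0 ^ a i * v i at h1
  rw [hb] at h1 ⊢
  rw [mul_zero, zero_add, Nat.pred_succ]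
  change ((b + 1 : ℕ) : F) * (t0 ^ b * t1) * v i = _
  have h4 : t1 / t0 * (((b + 1 : ℕ) : F) * v i) =
      t1 / t0 * (((b + 1 : ℕ) : F) * (t0 ^ (b + 1) * v i)) := by rw [← h1]
  rw [h4]
  field_simp
  ring

/-- the data from an injective assignment of equations to the weights larger than one -/
theorem exists_data (a : V → ℕ) (ha : ∀ i, 1 ≤ a i) (d : κ → ℕ) (hd : ∀ j, 1 ≤ d j)
    (f : κ → MvPolynomial V F) (hf : ∀ j, IsWeightedHomogeneous a (f j) (d j))
    (J : {i // 1 < a i} → κ) (hJ : Function.Injective J)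
    (hX : ∀ x : V → F, x ≠ 0 → (∀ i : {i // 1 < a i}, x i ≠ 0 → eval x (f (J i)) = 0) →
      ∀ g : ℕ, (∀ i, x i ≠ 0 → g ∣ a i) → g = 1)
    (n : ℕ) (hn : n + Fintype.card κ + 1 = Fintype.card V) (K : ℕ) (hK : n + 1 ≤ K) :
    ∃ e, e + ∑ i, a i = ∑ j, d j + K ∧ ∃ φ D, Data a f φ D e ∧
      (n + 2 ≤ K → ∑ i, (D i - 1) * a i + 1 ≤ e) := by
  classical
  have hX1 : ∀ i : {i // 1 < a i}, eval (Pi.single i.1 1) (f (J i)) ≠ 0 := by
    intro i h
    have h1 := hX (Pi.single i.1 1) (by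
      intro h'
      have := congrFun h' i.1
      rw [Pi.single_eq_same] at this
      exact one_ne_zero this) (by
      intro l hl
      have : l = i := by
        by_contra hne
        exact hl (Pi.single_eq_of_ne (fun h' => hne (Subtype.ext h')) _)
      rw [this]; exact h) (a i.1) (by
      intro l hl
      have : l = i.1 := by
        by_contra hne
        exact hl (Pi.single_eq_of_ne hne _)
      rw [this])
    have := i.2
    omega
  have hex : ∀ i, ∃ D : ℕ, 1 ≤ D ∧ (¬ 1 < a i → D = 1) ∧ ∀ h : 1 < a i,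
      D * a i = d (J ⟨i, h⟩) ∧ coeff (Finsupp.single i D) (f (J ⟨i, h⟩)) ≠ 0 := by
    intro i
    by_cases h : 1 < a i
    · obtain ⟨D, hD, hc⟩ := coord (hf (J ⟨i, h⟩)) (hX1 ⟨i, h⟩)
      refine ⟨D, ?_, fun h' => absurd h h', fun _ => ⟨hD, hc⟩⟩
      rcases Nat.eq_zero_or_pos D with h0 | h0
      · rw [h0, zero_mul] at hD
        have := hd (J ⟨i, h⟩)
        omega
      · exact h0
    · exact ⟨1, le_rfl, fun _ => rfl, fun h' => absurd h' h⟩
  choose D hD1 hD2 hD3 using hex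
  have hsum1 : ∑ i, (D i * a i - 1) ≤ ∑ j, (d j - 1) := by
    have h1 : ∑ i, (D i * a i - 1) = ∑ i ∈ univ.filter (fun i => 1 < a i), (D i * a i - 1) := by
      symm
      refine sum_filter_of_ne fun i _ h => ?_
      by_contra h'
      apply h
      have := ha i
      rw [hD2 i h', one_mul]
      omega
    have h2 : ∑ i ∈ univ.filter (fun i => 1 < a i), (D i * a i - 1) =
        ∑ i : {i // 1 < a i}, (D i.1 * a i.1 - 1) :=
      sum_subtype (univ.filter fun i => 1 < a i) (p := fun i => 1 < a i) (by simp)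
        (fun i => D i * a i - 1)
    have h3 : ∑ i : {i // 1 < a i}, (D i.1 * a i.1 - 1) = ∑ i : {i // 1 < a i}, (d (J i) - 1) :=
      sum_congr rfl fun i _ => by rw [(hD3 i.1 i.2).1]
    have h4 : ∑ i : {i // 1 < a i}, (d (J i) - 1) = ∑ j ∈ univ.image J, (d j - 1) := by
      rw [sum_image]
      intro i _ l _ h
      exact hJ h
    rw [h1, h2, h3, h4]
    exact sum_le_sum_of_subset (subset_univ _)
  have hsum2 : ∑ i, (D i * a i - 1) + Fintype.card V = ∑ i, D i * a i := by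
    have h1 : Fintype.card V = ∑ _i : V, 1 := by simp
    rw [h1, ← sum_add_distrib]
    refine sum_congr rfl fun i _ => ?_
    have : 1 ≤ D i * a i := Nat.mul_pos (hD1 i) (ha i)
    omega
  have hsum3 : ∑ j, (d j - 1) + Fintype.card κ = ∑ j, d j := by
    have h1 : Fintype.card κ = ∑ _j : κ, 1 := by simp
    rw [h1, ← sum_add_distrib]
    refine sum_congr rfl fun j _ => ?_
    have := hd j
    omega
  have hsum4 : ∑ i, (D i - 1) * a i + ∑ i, a i = ∑ i, D i * a i := by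
    rw [← sum_add_distrib]
    refine sum_congr rfl fun i _ => ?_
    obtain ⟨k, hk⟩ : ∃ k, D i = k + 1 := ⟨D i - 1, by have := hD1 i; omega⟩
    rw [hk, Nat.add_sub_cancel, add_mul, one_mul]
  obtain ⟨e, he⟩ : ∃ e, e + ∑ i, a i = ∑ j, d j + K :=
    ⟨∑ j, d j + K - ∑ i, a i, by omega⟩
  refine ⟨e, he, fun i => if h : 1 < a i then f (J ⟨i, h⟩) else 0, D,
    ⟨ha, hD1, ?_, ?_, ?_, ?_, ?_⟩, fun hK2 => by omega⟩
  · intro i hi
    rw [dif_pos hi, (hD3 i hi).1]
    exact hf _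
  · intro i hi
    rw [dif_pos hi]
    exact (hD3 i hi).2
  · intro x hx0 hx1 hx2 g hg
    refine hX x hx0 (fun i hi => ?_) g hg
    have := hx2 i.1 hi
    rw [dif_pos i.2] at this
    exact this
  · omega
  · intro i hi
    exact ⟨_, dif_pos hi⟩

end Pool.Agent.U479.VB
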