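import Pool.Agent.U479.VB.Sys
import Pool.Agent.U479.VA.Good

set_option autoImplicit false

/-! A set of nonzero coordinates which determines the others; arbitrary weights. -/

namespace Pool.Agent.U479.VB

open Finset MvPolynomial Pool.Agent.U479.FJ Pool.Agent.U479.VA

variable {V : Type} [Fintype V] [DecidableEq V] {F : Type} [Field F]

theorem exists_good (a : V → ℕ) (ha : ∀ i, 1 ≤ a i) (φ : V → MvPolynomial V F) (D : V → ℕ)
    (hD : ∀ i, 1 ≤ D i) (hφ : ∀ i, 1 < a i → IsWeightedHomogeneous a (φ i) (D i * a i))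
    (hcoef : ∀ i, 1 < a i → coeff (Finsupp.single i (D i)) (φ i) ≠ 0)
    (hav : ∀ x : V → F, x ≠ 0 → (∀ i, x i ≠ 0 → 1 < a i) → (∀ i, x i ≠ 0 → eval x (φ i) = 0) →
      ∀ g : ℕ, (∀ i, x i ≠ 0 → g ∣ a i) → g = 1)
    (e : ℕ) (he : ∑ i, (D i - 1) * a i + 1 ≤ e)
    (x : V → F) (hx : x ≠ 0) (hφx : ∀ i, 1 < a i → eval x (φ i) = 0) :
    ∃ T : Finset V, T.Nonempty ∧ (∀ i ∈ T, x i ≠ 0) ∧ Good a D T e := by
  classical
  obtain ⟨i₁, hi₁⟩ := Function.ne_iff.1 hx
  by_cases hone : ∃ i, x i ≠ 0 ∧ a i = 1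
  · obtain ⟨i, hi, hai⟩ := hone
    refine ⟨{i}, singleton_nonempty i, fun l hl => ?_, good_single a D i (hD i) hai e (by omega)⟩
    rw [mem_singleton] at hl
    rw [hl]; exact hi
  push Not at hone
  have hbig : ∀ i, x i ≠ 0 → 1 < a i := fun i hi => by
    have h1 := ha i
    have h2 := hone i hi
    omega
  -- the relations
  obtain ⟨P, hP⟩ : ∃ P : V → (V → ℕ) → Prop, P = fun i s => ∃ m : V →₀ ℕ, coeff m (φ i) ≠ 0 ∧
      m ≠ Finsupp.single i (D i) ∧ (∀ l, m l ≠ 0 → x l ≠ 0) ∧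
      s = fun l => if l = i then 0 else m l := ⟨_, rfl⟩
  obtain ⟨S, hS⟩ : ∃ S : Finset V, S = univ.filter fun i => x i ≠ 0 := ⟨_, rfl⟩
  have hmemS : ∀ i, i ∈ S ↔ x i ≠ 0 := fun i => by rw [hS, mem_filter]; simp
  have hSc : ClosedP P S := by
    intro i _ s hs l hl
    rw [hP] at hs
    obtain ⟨m, -, -, h3, rfl⟩ := hs
    rw [hmemS]
    refine h3 l fun h => hl ?_
    by_cases hli : l = i
    · simp [hli]
    · simp [hli, h]
  obtain ⟨T, hTS, hTne, hTc, hTmin⟩ := exists_minimal P S ⟨i₁, (hmemS i₁).2 hi₁⟩ hSc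
  have hTx : ∀ i ∈ T, x i ≠ 0 := fun i hi => (hmemS i).1 (hTS hi)
  -- the support of the monomials
  have hsupp : ∀ i ∈ T, ∀ m : V →₀ ℕ, coeff m (φ i) ≠ 0 → (∀ l, m l ≠ 0 → x l ≠ 0) →
      ∀ l, m l ≠ 0 → l ∈ T := by
    intro i hi m hm hmx l hl
    by_cases hli : l = i
    · rw [hli]; exact hi
    by_cases hne : m = Finsupp.single i (D i)
    · rw [hne, Finsupp.single_apply, if_neg (Ne.symm hli)] at hl
      exact absurd rfl hl
    · refine hTc i hi (fun l => if l = i then 0 else m l) ?_ l ?_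
      · rw [hP]; exact ⟨m, hm, hne, hmx, rfl⟩
      · beta_reduce
        rw [if_neg hli]; exact hl
  -- the weights of `T` have no common divisor
  have hgT : ∀ g : ℕ, (∀ i ∈ T, g ∣ a i) → g = 1 := by
    intro g hg
    obtain ⟨x', hx'⟩ : ∃ x' : V → F, x' = fun l => if l ∈ T then x l else 0 := ⟨_, rfl⟩
    have hx'T : ∀ l, x' l ≠ 0 ↔ l ∈ T := by
      intro l
      rw [hx']
      beta_reduce
      by_cases hl : l ∈ T
      · simp [hl, hTx l hl]
      · simp [hl]
    have hx'e : ∀ l ∈ T, x' l = x l := fun l hl => by rw [hx']; exact if_pos hl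
    refine hav x' ?_ (fun i hi => hbig i (hTx i ((hx'T i).1 hi))) ?_ g
      (fun i hi => hg i ((hx'T i).1 hi))
    · obtain ⟨i, hi⟩ := hTne
      intro h
      exact (hx'T i).2 hi (by rw [h]; rfl)
    · intro i hi
      have hiT := (hx'T i).1 hi
      rw [← hφx i (hbig i (hTx i hiT)), eval_eq', eval_eq']
      refine sum_congr rfl fun m hm => ?_
      congr 1
      by_cases hall : ∀ l, m l ≠ 0 → x l ≠ 0
      · have h1 := hsupp i hiT m (mem_support_iff.1 hm) hall
        refine prod_congr rfl fun l _ => ?_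
        by_cases hl : m l = 0
        · rw [hl, pow_zero, pow_zero]
        · rw [hx'e l (h1 l hl)]
      · push Not at hall
        obtain ⟨l, hl, hxl⟩ := hall
        have hx'l : x' l = 0 := by
          by_contra h
          exact hTx l ((hx'T l).1 h) hxl
        rw [prod_eq_zero (mem_univ l) (by rw [hx'l, zero_pow hl]),
          prod_eq_zero (mem_univ l) (by rw [hxl, zero_pow hl])]
  have hu := bezout a T hgT
  -- one relation
  have hone' : ∀ i ∈ T, ∀ s, P i s → s i = 0 ∧ ∃ c, (1 ≤ c ∧ c ≤ D i) ∧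
      c * a i = ∑ l ∈ T, s l * a l := by
    intro i hi s hs
    have hs' := hs
    rw [hP] at hs
    obtain ⟨m, h1, h2, h3, rfl⟩ := hs
    refine ⟨if_pos rfl, ?_⟩
    have hwt : m i * a i + ∑ l ∈ univ.erase i, m l * a l = D i * a i := by
      rw [← hφ i (hbig i (hTx i hi)) h1, weight_eq]
      exact add_sum_erase univ (fun l => m l * a l) (mem_univ i)
    have hmD : m i < D i := by
      have h4 : m i * a i ≤ D i * a i := by omega
      have h5 : m i ≤ D i := Nat.le_of_mul_le_mul_right h4 (by have := ha i; omega)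
      refine lt_of_le_of_ne h5 fun h6 => h2 ?_
      rw [h6] at hwt
      have h7 : ∑ l ∈ univ.erase i, m l * a l = 0 := by omega
      ext l
      by_cases hl : l = i
      · subst hl
        rw [Finsupp.single_eq_same, h6]
      · rw [Finsupp.single_apply, if_neg (Ne.symm hl)]
        rcases Nat.mul_eq_zero.1 ((sum_eq_zero_iff.1 h7) l (mem_erase.2 ⟨hl, mem_univ l⟩))
          with h8 | h8
        · exact h8
        · have := ha l; omega
    refine ⟨D i - m i, by omega, ?_⟩
    have h4 : ∑ l ∈ T, (if l = i then 0 else m l) * a l =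
        ∑ l, (if l = i then 0 else m l) * a l := by
      refine sum_subset (subset_univ T) fun l _ hl => ?_
      have : (if l = i then 0 else m l) = 0 := by
        by_contra h
        exact hl (hTc i hi _ hs' l h)
      rw [this, zero_mul]
    have h5 : ∑ l, (if l = i then 0 else m l) * a l = ∑ l ∈ univ.erase i, m l * a l := by
      rw [← add_sum_erase univ _ (mem_univ i)]
      beta_reduce
      rw [if_pos rfl, zero_mul, zero_add]
      exact sum_congr rfl fun l hl => by rw [if_neg (mem_erase.1 hl).1]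
    rw [h4, h5, Nat.sub_mul]
    omega
  have hexP : ∀ i ∈ T, ∃ s, P i s := by
    intro i hi
    have hxi := hTx i hi
    obtain ⟨m, h1, h2, h3⟩ := other (hφx i (hbig i hxi)) (hcoef i (hbig i hxi)) hxi
    refine ⟨fun l => if l = i then 0 else m l, ?_⟩
    rw [hP]; exact ⟨m, h1, h2, h3, rfl⟩
  have hsys : System a D T := by
    intro b hb
    obtain ⟨r, W, h0, h1, h2⟩ := exists_choice a P T ha hTmin hTc hb
    obtain ⟨s, hs⟩ := hexP b hb
    obtain ⟨r', hr'⟩ : ∃ r' : V → V → ℕ, r' = fun i => if i ∈ T then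
      (if i = b then s else r i) else 0 := ⟨_, rfl⟩
    have hr'b : r' b = s := by rw [hr']; simp [hb]
    have hr'i : ∀ i ∈ T, i ≠ b → r' i = r i := fun i hi hib => by rw [hr']; simp [hi, hib]
    have hr'P : ∀ i ∈ T, P i (r' i) := by
      intro i hi
      by_cases hib : i = b
      · subst hib; rw [hr'b]; exact hs
      · rw [hr'i i hi hib]; exact h0 i hi hib
    have hcex : ∀ i, ∃ c, i ∈ T → (1 ≤ c ∧ c ≤ D i) ∧ c * a i = ∑ l ∈ T, r' i l * a l := by
      intro i
      by_cases hi : i ∈ T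
      · obtain ⟨-, c, h3, h4⟩ := hone' i hi _ (hr'P i hi)
        exact ⟨c, fun _ => ⟨h3, h4⟩⟩
      · exact ⟨0, fun h => absurd h hi⟩
    choose c hc using hcex
    refine ⟨c, r', W, fun i hi => (hc i hi).1, fun i hi => (hc i hi).2, ?_, h1, ?_⟩
    · intro i
      by_cases hi : i ∈ T
      · exact (hone' i hi _ (hr'P i hi)).1
      · rw [hr']; simp [hi]
    · intro i hi hib
      have h3 := h2 i hi hib
      rw [← hr'i i hi hib, ← (hc i hi).2] at h3
      exact h3
  have heT : ∑ i ∈ T, (D i - 1) * a i < e := by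
    have h2 : ∑ i ∈ T, (D i - 1) * a i ≤ ∑ i, (D i - 1) * a i :=
      sum_le_sum_of_subset (subset_univ T)
    omega
  have hcast : ((∑ i ∈ T, (D i - 1) * a i : ℕ) : ℤ) = ∑ i ∈ T, ((D i : ℤ) - 1) * a i := by
    rw [Nat.cast_sum]
    refine sum_congr rfl fun i hi => ?_
    rw [Nat.cast_mul, Nat.cast_sub (hD i)]
    simp
  refine ⟨T, hTne, hTx, ?_, ?_, ?_⟩
  · intro b hb
    obtain ⟨y, hy⟩ := semigroup_sys a D T ha hsys hu hb ((e : ℤ) - a b) (by
        have h1 : ((∑ i ∈ T, (D i - 1) * a i : ℕ) : ℤ) < e := by exact_mod_cast heT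
        rw [hcast, ← add_sum_erase T _ hb] at h1
        have h2 : (1 : ℤ) ≤ D b := by exact_mod_cast hD b
        have h3 : 0 ≤ ((D b : ℤ) - 1) * a b := mul_nonneg (by linarith) (by positivity)
        linarith)
    have hy' : ∑ i ∈ T, y i * a i + 1 * a b = e := by
      have : ((∑ i ∈ T, y i * a i : ℕ) : ℤ) + 1 * a b = e := by rw [hy]; ring
      exact_mod_cast this
    refine ⟨fun i => y i + if i = b then 1 else 0, by simp, ?_⟩
    rw [sum_add_single a T y hb, hy']
  · intro G _ ρ C hρ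
    exact rigid_sys a D T ha hD hsys hu e heT ρ C hρ
  · intro z hz
    obtain ⟨b, hb⟩ := hTne
    refine semigroup_sys a D T ha hsys hu hb z ?_
    have h2 : (1 : ℤ) ≤ D b := by exact_mod_cast hD b
    have h3 : 0 ≤ ((D b : ℤ) - 1) * a b := mul_nonneg (by linarith) (by positivity)
    have h4 : (1 : ℤ) ≤ a b := by exact_mod_cast ha b
    rw [← add_sum_erase T _ hb] at hz
    linarith

end Pool.Agent.U479.VB
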