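import Pool.Agent.U479.VB.Good
import Pool.Agent.U479.VA.Point

set_option autoImplicit false

/-! The forms of degree `e` determine a point of `X` with values in an algebra; arbitrary weights. -/

namespace Pool.Agent.U479.VB

open Finset MvPolynomial Pool.Agent.U479.FJ Pool.Agent.U479.VA

variable {V : Type} [Fintype V] [DecidableEq V] {F : Type} [Field F]
variable {B : Type} [CommRing B] [Algebra F B]

/-- the variables which occur linearly -/
theorem linear_part {a : V → ℕ} (ha : ∀ i, 1 ≤ a i) {N : ℕ} {φ : MvPolynomial V F}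
    (hφ : IsWeightedHomogeneous a φ N) (L : Finset V) (m : V →₀ ℕ)
    (hm : coeff m (φ - ∑ l ∈ L, MvPolynomial.C (coeff (Finsupp.single l 1) φ) * X l) ≠ 0) :
    coeff m φ ≠ 0 ∧ ∑ i, m i * a i = N ∧
      ∀ l, m l ≠ 0 → a l < N ∨ (a l = N ∧ l ∉ L ∧ m = Finsupp.single l 1) := by
  classical
  have h0 : coeff m (∑ l ∈ L, MvPolynomial.C (coeff (Finsupp.single l 1) φ) * X l) =
      ∑ l ∈ L, if Finsupp.single l 1 = m then coeff (Finsupp.single l 1) φ else 0 := by
    rw [coeff_sum]
    refine sum_congr rfl fun l _ => ?_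
    rw [coeff_C_mul, coeff_X']
    split_ifs <;> simp
  have h1 : ∀ l ∈ L, m ≠ Finsupp.single l 1 := by
    intro l hl h
    apply hm
    rw [coeff_sub, h0, sum_eq_single l]
    · rw [if_pos h.symm, h, sub_self]
    · intro k _ hk
      rw [if_neg]
      intro h'
      rw [h] at h'
      exact hk (Finsupp.single_left_injective one_ne_zero h')
    · intro h'; exact absurd hl h'
  have h2 : coeff m φ ≠ 0 := by
    rw [coeff_sub, h0, sum_eq_zero (fun l hl => if_neg (fun h => h1 l hl h.symm)), sub_zero] at hm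
    exact hm
  have h3 : ∑ i, m i * a i = N := by rw [← weight_eq]; exact hφ h2
  refine ⟨h2, h3, fun l hl => ?_⟩
  rw [← add_sum_erase univ _ (mem_univ l)] at h3
  have h4 : 1 ≤ m l := Nat.one_le_iff_ne_zero.2 hl
  have h5 : a l ≤ m l * a l := Nat.le_mul_of_pos_left _ h4
  rcases Nat.lt_or_ge (a l) N with h6 | h6
  · exact Or.inl h6
  right
  have h7 : a l = N := by omega
  have h8 : m l = 1 := by
    by_contra h9
    have : 2 * a l ≤ m l * a l := Nat.mul_le_mul_right _ (by omega)
    have := ha l
    omega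
  have h9 : m = Finsupp.single l 1 := by
    rw [h8, one_mul] at h3
    have h10 : ∑ l ∈ univ.erase l, m l * a l = 0 := by omega
    ext k
    by_cases hk : k = l
    · subst hk
      rw [Finsupp.single_eq_same, h8]
    · rw [Finsupp.single_apply, if_neg (Ne.symm hk)]
      rcases Nat.mul_eq_zero.1 ((sum_eq_zero_iff.1 h10) k
        (mem_erase.2 ⟨hk, mem_univ k⟩)) with h11 | h11
      · exact h11
      · have := ha k; omega
  exact ⟨h7, fun h => h1 l h h9, h9⟩

/-- a system of linear equations over `F`, with an injective matrix, in an algebra -/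
theorem solve (M : Matrix V V F) (hM : ∀ x : V → F, M.mulVec x = 0 → x = 0) (z : V → B)
    (hz : ∀ l, ∑ k, algebraMap F B (M l k) * z k = 0) : z = 0 := by
  classical
  have h1 : Function.Injective M.mulVec := by
    intro x y hxy
    have := hM (x - y) (by rw [Matrix.mulVec_sub, hxy, sub_self])
    exact sub_eq_zero.1 this
  have h2 : IsUnit M := Matrix.mulVec_injective_iff_isUnit.1 h1
  obtain ⟨M', hM'⟩ := h2.exists_left_inv
  ext k
  have h3 : ∀ l, algebraMap F B ((M' * M) k l) = if k = l then 1 else 0 := by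
    intro l
    rw [hM', Matrix.one_apply]
    split_ifs <;> simp
  calc z k = ∑ l, (if k = l then 1 else 0) * z l := by simp
    _ = ∑ l, (∑ j, algebraMap F B (M' k j) * algebraMap F B (M j l)) * z l := by
      refine sum_congr rfl fun l _ => ?_
      rw [← h3 l, Matrix.mul_apply, map_sum]
      congr 1
      exact sum_congr rfl fun j _ => by rw [map_mul]
    _ = ∑ j, algebraMap F B (M' k j) * ∑ l, algebraMap F B (M j l) * z l := by
      simp only [sum_mul, mul_sum]
      rw [sum_comm]
      exact sum_congr rfl fun j _ => sum_congr rfl fun l _ => by ring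
    _ = 0 := by simp [hz]

theorem core (a : V → ℕ) (ha : ∀ i, 1 ≤ a i) (φ : V → MvPolynomial V F) (D : V → ℕ)
    (hD : ∀ i, 1 ≤ D i) (hφ : ∀ i, 1 < a i → IsWeightedHomogeneous a (φ i) (D i * a i))
    (hcoef : ∀ i, 1 < a i → coeff (Finsupp.single i (D i)) (φ i) ≠ 0)
    (hav : ∀ x : V → F, x ≠ 0 → (∀ i, x i ≠ 0 → 1 < a i) → (∀ i, x i ≠ 0 → eval x (φ i) = 0) →
      ∀ g : ℕ, (∀ i, x i ≠ 0 → g ∣ a i) → g = 1)
    (e : ℕ) (he : ∑ i, (D i - 1) * a i + 1 ≤ e)
    (x : V → F) (hx : x ≠ 0) (hφx : ∀ i, 1 < a i → eval x (φ i) = 0)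
    (y : V → B) (hφy : ∀ i, 1 < a i → aeval y (φ i) = 0) (C : Bˣ)
    (hC : ∀ s : MvPolynomial V F, IsWeightedHomogeneous a s e →
      aeval y s = (C : B) * algebraMap F B (eval x s)) :
    ∃ t : Bˣ, ∀ i, y i = (t : B) ^ a i * algebraMap F B (x i) := by
  classical
  obtain ⟨T, hTne, hTx, hG1, hG2, hG3⟩ := VB.exists_good a ha φ D hD hφ hcoef hav e he x hx hφx
  -- monomials
  have hmon : ∀ μ : V → ℕ, ∑ i, μ i * a i = e →
      ∏ i, y i ^ μ i = (C : B) * algebraMap F B (∏ i, x i ^ μ i) := by
    intro μ hμ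
    have h1 := hC (monomial (Finsupp.equivFunOnFinite.symm μ) 1)
      (isWeightedHomogeneous_monomial _ _ _ (by rw [weight_eq, ← hμ]; rfl))
    rw [eval_monomial, one_mul, Finsupp.prod_fintype _ _ (fun _ => pow_zero _), aeval_monomial,
      map_one, one_mul, Finsupp.prod_fintype _ _ (fun _ => pow_zero _)] at h1
    exact h1
  have hprodT : ∀ {M : Type} [CommMonoid M] (g : V → M) (μ : V → ℕ),
      ∏ i, g i ^ (if i ∈ T then μ i else 0) = ∏ i ∈ T, g i ^ μ i := by
    intro M _ g μ
    rw [← prod_subset (subset_univ T)]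
    · exact prod_congr rfl fun i hi => by rw [if_pos hi]
    · intro i _ hi
      rw [if_neg hi, pow_zero]
  have hsumT : ∀ (μ : V → ℕ), ∑ i, (if i ∈ T then μ i else 0) * a i = ∑ i ∈ T, μ i * a i := by
    intro μ
    rw [← sum_subset (subset_univ T)]
    · exact sum_congr rfl fun i hi => by rw [if_pos hi]
    · intro i _ hi
      rw [if_neg hi, zero_mul]
  have hmonT : ∀ μ : V → ℕ, ∑ i ∈ T, μ i * a i = e →
      ∏ i ∈ T, y i ^ μ i = (C : B) * algebraMap F B (∏ i ∈ T, x i ^ μ i) := by
    intro μ hμ
    have h1 := hmon (fun i => if i ∈ T then μ i else 0) (by rw [hsumT, hμ])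
    rw [hprodT, hprodT] at h1
    exact h1
  have hxu : ∀ z : F, z ≠ 0 → IsUnit (algebraMap F B z) := fun z hz =>
    (IsUnit.mk0 z hz).map (algebraMap F B)
  have hpx : ∀ μ : V → ℕ, ∏ i ∈ T, x i ^ μ i ≠ 0 := fun μ =>
    prod_ne_zero_iff.2 fun i hi => pow_ne_zero _ (hTx i hi)
  -- units
  have hyu : ∀ i ∈ T, IsUnit (y i) := by
    intro i hi
    obtain ⟨μ, h1, h2⟩ := hG1 i hi
    have h3 := hmonT μ h2
    have h4 : IsUnit (∏ i ∈ T, y i ^ μ i) := by
      rw [h3]
      exact C.isUnit.mul (hxu _ (hpx μ))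
    refine isUnit_of_dvd_unit ?_ h4
    exact (dvd_pow_self (y i) (by omega)).trans (dvd_prod_of_mem (fun i => y i ^ μ i) hi)
  have hex : ∀ i, ∃ u : Bˣ, i ∈ T → y i = (u : B) * algebraMap F B (x i) := by
    intro i
    by_cases hi : i ∈ T
    · obtain ⟨u, hu⟩ := hyu i hi
      obtain ⟨w, hw⟩ := hxu _ (hTx i hi)
      refine ⟨u * w⁻¹, fun _ => ?_⟩
      rw [← hu, ← hw, Units.val_mul, mul_assoc, Units.inv_mul, mul_one]
    · exact ⟨1, fun h => absurd h hi⟩
  choose ρ hρ using hex
  have hρC : ∀ μ : V → ℕ, ∑ i ∈ T, μ i * a i = e → ∏ i ∈ T, ρ i ^ μ i = C := by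
    intro μ hμ
    have h1 := hmonT μ hμ
    have h2 : ∏ i ∈ T, y i ^ μ i =
        ((∏ i ∈ T, ρ i ^ μ i : Bˣ) : B) * algebraMap F B (∏ i ∈ T, x i ^ μ i) := by
      rw [Units.coe_prod, map_prod, ← prod_mul_distrib]
      refine prod_congr rfl fun i hi => ?_
      rw [hρ i hi, mul_pow, map_pow, Units.val_pow_eq_pow_val]
    rw [h2] at h1
    exact Units.ext ((hxu _ (hpx μ)).mul_right_cancel h1)
  obtain ⟨t, ht⟩ := hG2 Bˣ ρ C hρC
  have hyT : ∀ i ∈ T, y i = (t : B) ^ a i * algebraMap F B (x i) := by
    intro i hi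
    rw [hρ i hi, ht i hi, Units.val_pow_eq_pow_val]
  have htC : t ^ e = C := by
    obtain ⟨i, hi⟩ := hTne
    obtain ⟨μ, -, h2⟩ := hG1 i hi
    rw [← hρC μ h2, ← h2, ← prod_pow_eq_pow_sum]
    refine prod_congr rfl fun l hl => ?_
    rw [ht l hl, ← pow_mul, mul_comm]
  refine ⟨t, ?_⟩
  -- coordinates which occur linearly in a monomial
  have hlin : ∀ l, l ∉ T → (∃ μ : V → ℕ, ((∑ i ∈ T, μ i * a i : ℕ) : ℤ) = (e : ℤ) - a l) →
      y l = (t : B) ^ a l * algebraMap F B (x l) := by
    rintro l hl ⟨μ, hμ⟩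
    have hμ' : ∑ i ∈ T, μ i * a i + a l = e := by
      have : ((∑ i ∈ T, μ i * a i : ℕ) : ℤ) + a l = e := by rw [hμ]; ring
      exact_mod_cast this
    have hprod : ∀ {M : Type} [CommMonoid M] (g : V → M),
        ∏ i, g i ^ ((if i ∈ T then μ i else 0) + if i = l then 1 else 0) =
          (∏ i ∈ T, g i ^ μ i) * g l := by
      intro M _ g
      rw [prod_add_single g univ (fun i => if i ∈ T then μ i else 0) (mem_univ l), hprodT, pow_one]
    have h1 := hmon (fun i => (if i ∈ T then μ i else 0) + if i = l then 1 else 0) (by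
      rw [sum_add_single a univ (fun i => if i ∈ T then μ i else 0) (mem_univ l), hsumT, one_mul,
        hμ'])
    rw [hprod, hprod] at h1
    have h2 : ∏ i ∈ T, y i ^ μ i =
        (t : B) ^ (∑ i ∈ T, μ i * a i) * algebraMap F B (∏ i ∈ T, x i ^ μ i) := by
      rw [map_prod, ← prod_pow_eq_pow_sum, ← prod_mul_distrib]
      refine prod_congr rfl fun i hi => ?_
      rw [hyT i hi, mul_pow, map_pow, ← pow_mul, mul_comm (a i)]
    rw [h2, ← htC, Units.val_pow_eq_pow_val, ← hμ', pow_add, map_mul] at h1
    have h3 : IsUnit ((t : B) ^ (∑ i ∈ T, μ i * a i) * algebraMap F B (∏ i ∈ T, x i ^ μ i)) :=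
      (t.isUnit.pow _).mul (hxu _ (hpx μ))
    refine h3.mul_left_cancel ?_
    rw [h1]
    ring
  have hsubT : ∀ l, l ∉ T → ∑ i ∈ T, (D i - 1) * a i + (D l - 1) * a l + 1 ≤ e := by
    intro l hl
    have h1 : ∑ i ∈ insert l T, (D i - 1) * a i ≤ ∑ i, (D i - 1) * a i :=
      sum_le_sum_of_subset (subset_univ _)
    rw [sum_insert hl] at h1
    omega
  have hcastT : ∑ i ∈ T, ((D i : ℤ) - 1) * a i = ((∑ i ∈ T, (D i - 1) * a i : ℕ) : ℤ) := by
    rw [Nat.cast_sum]
    refine sum_congr rfl fun i _ => ?_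
    rw [Nat.cast_mul, Nat.cast_sub (hD i)]
    simp
  have key : ∀ (N : ℕ) (l : V), a l = N → y l = (t : B) ^ a l * algebraMap F B (x l) := by
    intro N
    induction N using Nat.strong_induction_on with
    | _ N ih =>
    -- the coordinates which are not determined by a linear equation
    have hknown : ∀ l, a l = N → (l ∈ T ∨ a l = 1 ∨ D l ≠ 1) →
        y l = (t : B) ^ a l * algebraMap F B (x l) := by
      intro l hlN hl
      by_cases hlT : l ∈ T
      · exact hyT l hlT
      have hsl := hsubT l hlT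
      by_cases hal : a l = 1
      · refine hlin l hlT (hG3 _ ?_)
        rw [hcastT, hal]
        have : ∑ i ∈ T, (D i - 1) * a i + 1 ≤ e := by omega
        have : ((∑ i ∈ T, (D i - 1) * a i : ℕ) : ℤ) + 1 ≤ e := by exact_mod_cast this
        push_cast at this ⊢
        linarith
      have hDl : D l ≠ 1 := by
        rcases hl with h | h | h
        · exact absurd h hlT
        · exact absurd h hal
        · exact h
      refine hlin l hlT (hG3 _ ?_)
      rw [hcastT]
      have h1 := hD l
      obtain ⟨k, hk⟩ : ∃ k, D l = k + 2 := ⟨D l - 2, by omega⟩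
      rw [hk] at hsl
      have h2 : (k + 2 - 1) * a l = k * a l + a l := by
        rw [show k + 2 - 1 = k + 1 by omega, add_mul, one_mul]
      have h3 : ∑ i ∈ T, (D i - 1) * a i + a l ≤ e := by omega
      have h4 : ((∑ i ∈ T, (D i - 1) * a i : ℕ) : ℤ) + a l ≤ e := by exact_mod_cast h3
      linarith
    obtain ⟨L, hL⟩ : ∃ L : Finset V, L = univ.filter fun l => a l = N ∧ l ∉ T ∧ a l ≠ 1 ∧ D l = 1 :=
      ⟨_, rfl⟩
    have hmemL : ∀ l, l ∈ L ↔ (a l = N ∧ l ∉ T ∧ a l ≠ 1 ∧ D l = 1) := fun l => by
      rw [hL, mem_filter]; simp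
    have hLbig : ∀ l ∈ L, 1 < a l := fun l hl => by
      have h1 := ((hmemL l).1 hl).2.2.1
      have h2 := ha l
      omega
    have hLhom : ∀ l ∈ L, IsWeightedHomogeneous a (φ l) N := fun l hl => by
      obtain ⟨h1, -, -, h2⟩ := (hmemL l).1 hl
      have h3 := hφ l (hLbig l hl)
      rwa [h2, one_mul, h1] at h3
    have hnotL : ∀ l, a l = N → l ∉ L → y l = (t : B) ^ a l * algebraMap F B (x l) := by
      intro l hlN hl
      refine hknown l hlN ?_
      by_contra hcon
      push Not at hcon
      exact hl ((hmemL l).2 ⟨hlN, hcon.1, hcon.2.1, hcon.2.2⟩)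
    -- the matrix
    obtain ⟨M, hM⟩ : ∃ M : Matrix V V F, M = fun l k => if l ∈ L then
      (if k ∈ L then coeff (Finsupp.single k 1) (φ l) else 0) else (if l = k then 1 else 0) :=
      ⟨_, rfl⟩
    have hMinj : ∀ w : V → F, M.mulVec w = 0 → w = 0 := by
      intro w hw
      have hw0 : ∀ l, l ∉ L → w l = 0 := by
        intro l hl
        have h1 := congrFun hw l
        rw [Matrix.mulVec, dotProduct] at h1
        rw [hM] at h1
        simp only [if_neg hl, ite_mul, one_mul, zero_mul, sum_ite_eq, mem_univ, if_true] at h1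
        exact h1
      by_contra hne
      obtain ⟨i₀, hi₀⟩ := Function.ne_iff.1 hne
      have hi₀L : i₀ ∈ L := by
        by_contra h
        exact hi₀ (hw0 i₀ h)
      have hwL : ∀ l, w l ≠ 0 → l ∈ L := fun l hl => by
        by_contra h
        exact hl (hw0 l h)
      have h1 := hav w hne (fun i hi => hLbig i (hwL i hi)) (fun i hi => by
        have hiL := hwL i hi
        have h2 := congrFun hw i
        rw [Matrix.mulVec, dotProduct] at h2
        rw [hM] at h2
        simp only [if_pos hiL, ite_mul, zero_mul, sum_ite_mem, univ_inter] at h2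
        have h3 : φ i = (∑ l ∈ L, MvPolynomial.C (coeff (Finsupp.single l 1) (φ i)) * X l) +
            (φ i - ∑ l ∈ L, MvPolynomial.C (coeff (Finsupp.single l 1) (φ i)) * X l) := by ring
        rw [h3, map_add, map_sum]
        have h4 : ∑ l ∈ L, eval w (MvPolynomial.C (coeff (Finsupp.single l 1) (φ i)) * X l) = 0 := by
          rw [Pi.zero_apply] at h2
          rw [← h2]
          exact sum_congr rfl fun l _ => by rw [map_mul, eval_C, eval_X]
        rw [h4, zero_add, eval_eq']
        refine sum_eq_zero fun m hm => ?_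
        obtain ⟨-, h5, h6⟩ := linear_part ha (hLhom i hiL) L m (mem_support_iff.1 hm)
        have h7 : ∃ l, m l ≠ 0 := by
          by_contra hcon
          push Not at hcon
          simp only [hcon, zero_mul, sum_const_zero] at h5
          have := ((hmemL i).1 hiL).1
          have := ha i
          omega
        obtain ⟨l, hl⟩ := h7
        have h8 : w l = 0 := by
          by_contra h
          have h9 := hwL l h
          rcases h6 l hl with h10 | ⟨-, h10, -⟩
          · have := ((hmemL l).1 h9).1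
            omega
          · exact h10 h9
        rw [prod_eq_zero (mem_univ l) (by rw [h8, zero_pow hl]), mul_zero]) N
        (fun i hi => by rw [((hmemL i).1 (hwL i hi)).1])
      have h2 := ((hmemL i₀).1 hi₀L)
      omega
    have hz := solve M hMinj (fun l => if l ∈ L then y l - (t : B) ^ a l * algebraMap F B (x l) else 0)
      (by
        intro i
        rw [hM]
        by_cases hiL : i ∈ L
        swap
        · simp only [if_neg hiL]
          refine sum_eq_zero fun k _ => ?_
          by_cases hik : i = k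
          · subst hik
            rw [if_neg hiL, mul_zero]
          · rw [if_neg hik, map_zero, zero_mul]
        simp only [if_pos hiL]
        have h3 : φ i = (∑ l ∈ L, MvPolynomial.C (coeff (Finsupp.single l 1) (φ i)) * X l) +
            (φ i - ∑ l ∈ L, MvPolynomial.C (coeff (Finsupp.single l 1) (φ i)) * X l) := by ring
        obtain ⟨ψ, hψ⟩ : ∃ ψ, ψ = φ i - ∑ l ∈ L, MvPolynomial.C (coeff (Finsupp.single l 1) (φ i)) *
          X l := ⟨_, rfl⟩
        rw [← hψ] at h3
        have hsc : aeval y ψ = (t : B) ^ N * algebraMap F B (eval x ψ) := by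
          refine aeval_scaled (a := a) ψ fun m hm => ?_
          rw [hψ] at hm
          obtain ⟨-, h5, h6⟩ := linear_part ha (hLhom i hiL) L m hm
          refine ⟨h5, fun l hl => ?_⟩
          rcases h6 l hl with h7 | ⟨h7, h8, -⟩
          · exact ih (a l) h7 l rfl
          · exact hnotL l h7 h8
        have hey := hφy i (hLbig i hiL)
        have hex := hφx i (hLbig i hiL)
        rw [h3, map_add, map_sum, hsc] at hey
        rw [h3, map_add, map_sum] at hex
        have h4 : ∑ l ∈ L, algebraMap F B (coeff (Finsupp.single l 1) (φ i)) * y l +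
            (t : B) ^ N * algebraMap F B (eval x ψ) = 0 := by
          rw [← hey]
          congr 1
          exact sum_congr rfl fun l _ => by rw [map_mul, aeval_C, aeval_X]
        have h5 : algebraMap F B (∑ l ∈ L, coeff (Finsupp.single l 1) (φ i) * x l) +
            algebraMap F B (eval x ψ) = 0 := by
          rw [← map_add, ← map_zero (algebraMap F B), ← hex]
          congr 2
          exact sum_congr rfl fun l _ => by rw [map_mul, eval_C, eval_X]
        have h6 : ∑ k, algebraMap F B (if k ∈ L then coeff (Finsupp.single k 1) (φ i) else 0) *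
            (if k ∈ L then y k - (t : B) ^ a k * algebraMap F B (x k) else 0) =
            ∑ k ∈ L, (algebraMap F B (coeff (Finsupp.single k 1) (φ i)) * y k -
              (t : B) ^ N * algebraMap F B (coeff (Finsupp.single k 1) (φ i) * x k)) := by
          rw [← sum_subset (subset_univ L)]
          · refine sum_congr rfl fun k hk => ?_
            rw [if_pos hk, if_pos hk, ((hmemL k).1 hk).1, map_mul]
            ring
          · intro k _ hk
            rw [if_neg hk, if_neg hk, mul_zero]
        rw [h6, sum_sub_distrib, ← mul_sum, ← map_sum]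
        linear_combination h4 - (t : B) ^ N * h5)
    intro l hlN
    by_cases hl : l ∈ L
    · have h1 := congrFun hz l
      rw [if_pos hl, Pi.zero_apply] at h1
      exact sub_eq_zero.1 h1
    · exact hnotL l hlN hl
  exact fun i => key _ i rfl

end Pool.Agent.U479.VB
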