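import Pool.Agent.U479.VA.Rigid

set_option autoImplicit false

/-! Systems of relations which are connected towards every root; arbitrary weights. -/

namespace Pool.Agent.U479.VB

open Finset Pool.Agent.U479.VA

variable {V : Type} [DecidableEq V]

/-- `U` is closed under all relations in `P` -/
def ClosedP (P : V → (V → ℕ) → Prop) (U : Finset V) : Prop :=
  ∀ i ∈ U, ∀ s, P i s → ∀ l, s l ≠ 0 → l ∈ U

theorem exists_minimal (P : V → (V → ℕ) → Prop) (S : Finset V) (hS : S.Nonempty)
    (hc : ClosedP P S) :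
    ∃ T ⊆ S, T.Nonempty ∧ ClosedP P T ∧ ∀ U ⊆ T, U.Nonempty → ClosedP P U → U = T := by
  classical
  obtain ⟨T, hT, hmin⟩ := Finset.exists_min_image
    (S.powerset.filter fun U => U.Nonempty ∧ ClosedP P U) (fun U => U.card)
    ⟨S, by simp [hS, hc]⟩
  rw [mem_filter, mem_powerset] at hT
  refine ⟨T, hT.1, hT.2.1, hT.2.2, fun U hU hne hcl => ?_⟩
  have := hmin U (by rw [mem_filter, mem_powerset]; exact ⟨hU.trans hT.1, hne, hcl⟩)
  exact eq_of_subset_of_card_le hU this

/-- the potential, with a choice of the relations -/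
theorem exists_choice (a : V → ℕ) (P : V → (V → ℕ) → Prop) (T : Finset V) (ha : ∀ i, 1 ≤ a i)
    (hmin : ∀ U ⊆ T, U.Nonempty → ClosedP P U → U = T) (hcl : ClosedP P T)
    {b : V} (hb : b ∈ T) :
    ∃ (r : V → V → ℕ) (W : V → ℕ), (∀ i ∈ T, i ≠ b → P i (r i)) ∧
      (∀ i ∈ T, 1 ≤ W i ∧ W i ≤ W b) ∧
      ∀ i ∈ T, i ≠ b → W i * (∑ l ∈ T, r i l * a l) < ∑ l ∈ T, r i l * a l * W l := by
  classical
  have key : ∀ n : ℕ, n + 1 ≤ T.card → ∃ A ⊆ T, A.card = n + 1 ∧ b ∈ A ∧
      ∃ (r : V → V → ℕ) (W : V → ℕ), (∀ i ∈ A, i ≠ b → P i (r i)) ∧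
      (∀ i ∈ A, 1 ≤ W i ∧ W i ≤ W b) ∧ (∀ i, i ∉ A → W i = 0) ∧
      ∀ i ∈ A, i ≠ b → W i * (∑ l ∈ T, r i l * a l) < ∑ l ∈ T, r i l * a l * W l := by
    intro n
    induction n with
    | zero =>
      intro _
      refine ⟨{b}, by simpa using hb, by simp, by simp, fun _ _ => 0,
        fun i => if i = b then 1 else 0, ?_, ?_, ?_, ?_⟩
      · intro i hi hib
        rw [mem_singleton] at hi
        exact absurd hi hib
      · intro i hi
        rw [mem_singleton] at hi
        subst hi
        simp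
      · intro i hi
        rw [mem_singleton] at hi
        simp [hi]
      · intro i hi hib
        rw [mem_singleton] at hi
        exact absurd hi hib
    | succ n ih =>
      intro hn
      obtain ⟨A, hAT, hAc, hbA, r, W, h0, h1, h2, h3⟩ := ih (by omega)
      have hUne : (T \ A).Nonempty := by
        rw [← card_pos, card_sdiff_of_subset hAT]
        omega
      have hUT : T \ A ≠ T := by
        intro h
        have : b ∈ T \ A := by rw [h]; exact hb
        exact (mem_sdiff.1 this).2 hbA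
      have hncl : ¬ ClosedP P (T \ A) := fun h => hUT (hmin _ sdiff_subset hUne h)
      unfold ClosedP at hncl
      push Not at hncl
      obtain ⟨i, hi, s, hPs, l, hrl, hl⟩ := hncl
      rw [mem_sdiff] at hi
      have hlT : l ∈ T := hcl i hi.1 s hPs l hrl
      have hlA : l ∈ A := by
        by_contra h
        exact hl (mem_sdiff.2 ⟨hlT, h⟩)
      have hli : l ≠ i := fun h => hi.2 (h ▸ hlA)
      obtain ⟨Q, hQ⟩ : ∃ Q, Q = ∑ l ∈ T, s l * a l + 1 := ⟨_, rfl⟩
      have hbi : b ≠ i := fun h => hi.2 (h ▸ hbA)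
      have hQ1 : 0 < Q := by omega
      refine ⟨insert i A, insert_subset hi.1 hAT, by rw [card_insert_of_notMem hi.2, hAc],
        mem_insert_of_mem hbA, Function.update r i s, fun x => if x = i then 1 else Q * W x,
        ?_, ?_, ?_, ?_⟩
      · intro x hx hxb
        rcases mem_insert.1 hx with rfl | hxA
        · rw [Function.update_self]; exact hPs
        · have hxi : x ≠ i := fun h => hi.2 (h ▸ hxA)
          rw [Function.update_of_ne hxi]
          exact h0 x hxA hxb
      · intro x hx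
        beta_reduce
        rw [if_neg hbi]
        rcases mem_insert.1 hx with rfl | hxA
        · rw [if_pos rfl]
          refine ⟨le_rfl, ?_⟩
          have := (h1 b hbA).1
          exact Nat.mul_pos hQ1 this
        · have hxi : x ≠ i := fun h => hi.2 (h ▸ hxA)
          rw [if_neg hxi]
          refine ⟨?_, Nat.mul_le_mul_left _ (h1 x hxA).2⟩
          have := (h1 x hxA).1
          exact Nat.mul_pos hQ1 this
      · intro x hx
        rw [mem_insert] at hx
        push Not at hx
        beta_reduce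
        rw [if_neg hx.1, h2 x hx.2, mul_zero]
      · intro x hx hxb
        beta_reduce
        rcases mem_insert.1 hx with rfl | hxA
        · rw [if_pos rfl, one_mul, Function.update_self]
          have h4 : s l * a l * (if l = x then 1 else Q * W l) ≤
              ∑ l ∈ T, s l * a l * (if l = x then 1 else Q * W l) :=
            single_le_sum (f := fun l => s l * a l * (if l = x then 1 else Q * W l))
              (fun _ _ => Nat.zero_le _) hlT
          rw [if_neg hli] at h4
          have h5 : 1 ≤ s l * a l := Nat.one_le_iff_ne_zero.2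
            (Nat.mul_ne_zero hrl (by have := ha l; omega))
          have h6 : 1 ≤ W l := (h1 l hlA).1
          have h7 : Q ≤ s l * a l * (Q * W l) := by
            calc Q = 1 * (Q * 1) := by ring
              _ ≤ s l * a l * (Q * W l) := Nat.mul_le_mul h5 (Nat.mul_le_mul_left _ h6)
          omega
        · have hxi : x ≠ i := fun h => hi.2 (h ▸ hxA)
          rw [if_neg hxi, Function.update_of_ne hxi]
          have h4 := h3 x hxA hxb
          calc Q * W x * (∑ l ∈ T, r x l * a l) = Q * (W x * (∑ l ∈ T, r x l * a l)) := by ring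
            _ < Q * ∑ l ∈ T, r x l * a l * W l := Nat.mul_lt_mul_of_pos_left h4 (by omega)
            _ = ∑ l ∈ T, r x l * a l * (Q * W l) := by
              rw [mul_sum]
              exact sum_congr rfl fun _ _ => by ring
            _ ≤ ∑ l ∈ T, r x l * a l * (if l = i then 1 else Q * W l) := by
              refine sum_le_sum fun l _ => Nat.mul_le_mul_left _ ?_
              by_cases h : l = i
              · rw [if_pos h, h, h2 i hi.2, mul_zero]
                exact Nat.zero_le _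
              · rw [if_neg h]
  obtain ⟨A, hAT, hAc, hbA, r, W, h0, h1, -, h3⟩ := key (T.card - 1) (by
    have := card_pos.2 ⟨b, hb⟩; omega)
  have hA : A = T := eq_of_subset_of_card_le hAT (by
    have := card_pos.2 ⟨b, hb⟩; omega)
  subst hA
  exact ⟨r, W, h0, h1, h3⟩

theorem bezout (a : V → ℕ) (T : Finset V) (hg : ∀ g : ℕ, (∀ i ∈ T, g ∣ a i) → g = 1) :
    ∃ u : V → ℤ, ∑ i ∈ T, u i * a i = 1 := by
  classical
  have key : ∀ T : Finset V, ∃ u : V → ℤ, ∑ i ∈ T, u i * a i = (T.gcd a : ℕ) := by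
    intro T
    induction T using Finset.induction_on with
    | empty => exact ⟨fun _ => 0, by simp⟩
    | insert i T hi ih =>
      obtain ⟨u, hu⟩ := ih
      refine ⟨fun l => if l = i then Nat.gcdA (a i) (T.gcd a) else
        Nat.gcdB (a i) (T.gcd a) * u l, ?_⟩
      rw [sum_insert hi, gcd_insert]
      beta_reduce
      rw [if_pos rfl]
      have h1 : ∑ l ∈ T, (if l = i then Nat.gcdA (a i) (T.gcd a) else
          Nat.gcdB (a i) (T.gcd a) * u l) * (a l : ℤ) =
          Nat.gcdB (a i) (T.gcd a) * (T.gcd a : ℕ) := by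
        rw [← hu, mul_sum]
        refine sum_congr rfl fun l hl => ?_
        have hli : l ≠ i := fun h => hi (h ▸ hl)
        rw [if_neg hli, mul_assoc]
      rw [h1]
      have h2 := Nat.gcd_eq_gcd_ab (a i) (T.gcd a)
      have h3 : GCDMonoid.gcd (a i) (T.gcd a) = Nat.gcd (a i) (T.gcd a) := rfl
      rw [h3, h2]
      ring
  obtain ⟨u, hu⟩ := key T
  refine ⟨u, ?_⟩
  rw [hu, hg (T.gcd a) (fun i hi => gcd_dvd hi)]
  rfl

/-- a system of relations which, for every root, has a choice of relations with a potential -/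
def System (a D : V → ℕ) (T : Finset V) : Prop :=
  ∀ b ∈ T, ∃ (c : V → ℕ) (r : V → V → ℕ) (W : V → ℕ),
    (∀ i ∈ T, 1 ≤ c i ∧ c i ≤ D i) ∧ (∀ i ∈ T, c i * a i = ∑ l ∈ T, r i l * a l) ∧
    (∀ i, r i i = 0) ∧ (∀ i ∈ T, 1 ≤ W i ∧ W i ≤ W b) ∧
    (∀ i ∈ T, i ≠ b → W i * (c i * a i) < ∑ l ∈ T, r i l * a l * W l)

theorem semigroup_sys (a D : V → ℕ) (T : Finset V) (ha : ∀ i, 1 ≤ a i) (S : System a D T)
    (hu : ∃ u : V → ℤ, ∑ i ∈ T, u i * a i = 1) {b : V} (hb : b ∈ T) (z : ℤ)
    (hz : ∑ i ∈ T.erase b, ((D i : ℤ) - 1) * a i < z + a b) :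
    ∃ y : V → ℕ, ((∑ i ∈ T, y i * a i : ℕ) : ℤ) = z := by
  classical
  obtain ⟨c, r, W, hc, hrel, hrii, hW1, hW2⟩ := S b hb
  obtain ⟨u, hu⟩ := hu
  have h4 : (0 : ℤ) < a b := by have := ha b; exact_mod_cast this
  obtain ⟨p, hp⟩ : ∃ p : V → ℕ, ∀ i, (p i : ℤ) = (z * u i) % a b :=
    ⟨fun i => ((z * u i) % a b).toNat, fun i => Int.toNat_of_nonneg (Int.emod_nonneg _ h4.ne')⟩
  obtain ⟨q, hq⟩ : (a b : ℤ) ∣ z - (∑ i ∈ T.erase b, p i * a i : ℕ) := by
    have h1 : z = z * u b * a b + ∑ i ∈ T.erase b, z * u i * a i := by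
      calc z = z * ∑ i ∈ T, u i * a i := by rw [hu, mul_one]
        _ = z * (u b * a b + ∑ i ∈ T.erase b, u i * a i) := by
          rw [add_sum_erase T (fun i => u i * (a i : ℤ)) hb]
        _ = _ := by
          rw [mul_add, mul_sum]
          congr 1
          · ring
          · exact sum_congr rfl fun _ _ => by ring
    have h2 : z - (∑ i ∈ T.erase b, p i * a i : ℕ) =
        z * u b * a b + ∑ i ∈ T.erase b, (z * u i - p i) * a i := by
      push_cast
      conv_lhs => rw [h1]
      rw [add_sub_assoc, ← sum_sub_distrib]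
      congr 1
      exact sum_congr rfl fun _ _ => by ring
    rw [h2]
    refine dvd_add (Dvd.intro_left _ rfl) (dvd_sum fun i _ => Dvd.dvd.mul_right ?_ _)
    rw [hp]
    exact Int.dvd_self_sub_emod
  obtain ⟨m, h, hm1, hm2, -⟩ := normal_form a c r T W hb hW1 hW2 hrel hrii
    (fun _ => (1 : Multiplicative ℤ)) (fun i _ => by simp) _ p rfl
  have h2 : z = ((∑ i ∈ T.erase b, m i * a i : ℕ) : ℤ) + (h + q) * a b := by
    have h1 : z = (∑ i ∈ T.erase b, p i * a i : ℕ) + a b * q := by linarith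
    rw [hm2] at h1
    rw [h1]
    push_cast
    ring
  have h3 : ((∑ i ∈ T.erase b, m i * a i : ℕ) : ℤ) ≤ ∑ i ∈ T.erase b, ((D i : ℤ) - 1) * a i := by
    push_cast
    refine sum_le_sum fun i hi => mul_le_mul_of_nonneg_right ?_ (by positivity)
    have h5 := hm1 i hi
    have h6 := (hc i (mem_erase.1 hi).2).2
    have : (m i : ℤ) < D i := by exact_mod_cast lt_of_lt_of_le h5 h6
    linarith
  have h5 : -1 < (h : ℤ) + q := by
    by_contra hcon
    push Not at hcon
    have : ((h : ℤ) + q) * a b ≤ (-1) * a b := mul_le_mul_of_nonneg_right hcon h4.le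
    linarith
  obtain ⟨t, ht⟩ : ∃ t : ℕ, (t : ℤ) = h + q := ⟨((h : ℤ) + q).toNat, Int.toNat_of_nonneg (by omega)⟩
  refine ⟨fun i => if i = b then t else m i, ?_⟩
  rw [← add_sum_erase T _ hb]
  beta_reduce
  have h6 : ∑ i ∈ T.erase b, (if i = b then t else m i) * a i = ∑ i ∈ T.erase b, m i * a i :=
    sum_congr rfl fun i hi => by rw [if_neg (mem_erase.1 hi).1]
  rw [h6, if_pos rfl, h2, ← ht]
  push_cast
  ring

theorem prod_zpow_eq {G : Type} [CommGroup G] (x : G) (T : Finset V) (g : V → ℤ) :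
    ∏ l ∈ T, x ^ g l = x ^ (∑ l ∈ T, g l) := by
  classical
  induction T using Finset.induction_on with
  | empty => simp
  | insert y T hy ih => rw [prod_insert hy, sum_insert hy, ih, zpow_add]

theorem rigid_sys (a D : V → ℕ) (T : Finset V) (ha : ∀ i, 1 ≤ a i) (hD : ∀ i, 1 ≤ D i)
    (S : System a D T) (hu : ∃ u : V → ℤ, ∑ i ∈ T, u i * a i = 1) (e : ℕ)
    (he : ∑ i ∈ T, (D i - 1) * a i < e) {G : Type} [CommGroup G] (ρ : V → G) (C : G)
    (hρ : ∀ y : V → ℕ, ∑ i ∈ T, y i * a i = e → ∏ i ∈ T, ρ i ^ y i = C) :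
    ∃ t : G, ∀ i ∈ T, ρ i = t ^ a i := by
  classical
  have heZ : ∑ i ∈ T, ((D i : ℤ) - 1) * a i < e := by
    have h2 : ((∑ i ∈ T, (D i - 1) * a i : ℕ) : ℤ) = ∑ i ∈ T, ((D i : ℤ) - 1) * a i := by
      rw [Nat.cast_sum]
      refine sum_congr rfl fun i hi => ?_
      rw [Nat.cast_mul, Nat.cast_sub (hD i)]
      simp
    rw [← h2]
    exact_mod_cast he
  -- all relations hold
  have hrelρ : ∀ b ∈ T, ∀ (c : ℕ) (s : V → ℕ), c ≤ D b → c * a b = ∑ l ∈ T, s l * a l →
      ρ b ^ c = ∏ l ∈ T, ρ l ^ s l := by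
    intro b hb c s hcD hs
    obtain ⟨y, hy⟩ := semigroup_sys a D T ha S hu hb ((e : ℤ) - c * a b) (by
        rw [← add_sum_erase T _ hb] at heZ
        have h1 : (c : ℤ) ≤ D b := by exact_mod_cast hcD
        have h2 : (c : ℤ) * a b ≤ D b * a b := mul_le_mul_of_nonneg_right h1 (by positivity)
        linarith)
    have hy' : ∑ i ∈ T, y i * a i + c * a b = e := by
      have : ((∑ i ∈ T, y i * a i : ℕ) : ℤ) + c * a b = e := by rw [hy]; ring
      exact_mod_cast this
    have h1 := hρ (fun i => y i + if i = b then c else 0) (by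
      rw [sum_add_single a T y hb, hy'])
    have h2 := hρ (fun i => y i + s i) (by
      have : ∑ i ∈ T, (y i + s i) * a i = ∑ i ∈ T, y i * a i + ∑ i ∈ T, s i * a i := by
        rw [← sum_add_distrib]
        exact sum_congr rfl fun l _ => add_mul _ _ _
      rw [this, ← hs, hy'])
    rw [prod_add_single ρ T y hb] at h1
    have h3 : ∏ i ∈ T, ρ i ^ (y i + s i) = (∏ i ∈ T, ρ i ^ y i) * ∏ i ∈ T, ρ i ^ s i := by
      rw [← prod_mul_distrib]
      exact prod_congr rfl fun l _ => pow_add _ _ _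
    beta_reduce at h2
    rw [h3, ← h1] at h2
    exact (mul_left_cancel h2).symm
  -- pairs
  have hpair : ∀ i ∈ T, ∀ k ∈ T, ρ i ^ a k = ρ k ^ a i := by
    intro i hi k hk
    by_cases hik : i = k
    · rw [hik]
    have hik' : i ∈ T.erase k := mem_erase.2 ⟨hik, hi⟩
    obtain ⟨c, r, W, hc, hrel, hrii, hW1, hW2⟩ := S k hk
    obtain ⟨y, hy⟩ := semigroup_sys a D T ha S hu hk (e : ℤ) (by
        rw [← add_sum_erase T _ hk] at heZ
        have h2 : (1 : ℤ) ≤ D k := by exact_mod_cast hD k
        have h3 : 0 ≤ ((D k : ℤ) - 1) * a k := mul_nonneg (by linarith) (by positivity)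
        have h4 : (1 : ℤ) ≤ a k := by exact_mod_cast ha k
        linarith)
    have hy' : ∑ i ∈ T, y i * a i = e := by exact_mod_cast hy
    obtain ⟨m, h, hm1, hm2, hm3⟩ := normal_form a c r T W hk hW1 hW2 hrel hrii ρ
      (fun i hi => hrelρ i hi (c i) (r i) (hc i hi).2 (hrel i hi)) _
      (fun l => y l + if l = i then a k else 0) rfl
    rw [sum_add_single a _ y hik'] at hm2
    rw [prod_add_single ρ _ y hik'] at hm3
    have h1 : y k * a k + ∑ l ∈ T.erase k, y l * a l = e := by
      rw [← hy']; exact add_sum_erase T (fun l => y l * a l) hk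
    have h2 : ∑ l ∈ T.erase k, m l * a l < e := by
      refine lt_of_le_of_lt ?_ he
      calc ∑ l ∈ T.erase k, m l * a l ≤ ∑ l ∈ T.erase k, (D l - 1) * a l :=
            sum_le_sum fun l hl => Nat.mul_le_mul_right _ (by
              have := hm1 l hl
              have := (hc l (mem_erase.1 hl).2).2
              omega)
        _ ≤ ∑ l ∈ T, (D l - 1) * a l := sum_le_sum_of_subset (erase_subset _ _)
    have h3 : a i * a k < (h + y k) * a k := by
      have h5 : (h + y k) * a k = h * a k + y k * a k := add_mul _ _ _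
      have h6 : a k * a i = a i * a k := mul_comm _ _
      omega
    have h4 : a i < h + y k := lt_of_mul_lt_mul_right h3 (Nat.zero_le _)
    obtain ⟨s, hs⟩ : ∃ s, h + y k = s + a i := ⟨h + y k - a i, by omega⟩
    have h7 := hρ (fun l => if l = k then s else m l) (by
      rw [← add_sum_erase T _ hk]
      have h8 : ∑ l ∈ T.erase k, (if l = k then s else m l) * a l = ∑ l ∈ T.erase k, m l * a l :=
        sum_congr rfl fun l hl => by rw [if_neg (mem_erase.1 hl).1]
      rw [h8, if_pos rfl]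
      have h5 : (h + y k) * a k = h * a k + y k * a k := add_mul _ _ _
      have h6 : a k * a i = a i * a k := mul_comm _ _
      have h9 : (s + a i) * a k = s * a k + a i * a k := add_mul _ _ _
      rw [hs] at h5
      omega)
    rw [← mul_prod_erase T _ hk] at h7
    have h8 : ∏ l ∈ T.erase k, ρ l ^ (if l = k then s else m l) = ∏ l ∈ T.erase k, ρ l ^ m l :=
      prod_congr rfl fun l hl => by rw [if_neg (mem_erase.1 hl).1]
    rw [h8, if_pos rfl] at h7
    have h9 := hρ y hy'
    rw [← mul_prod_erase T _ hk] at h9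
    have h10 : C * ρ k ^ a i = C * ρ i ^ a k := by
      calc C * ρ k ^ a i = (∏ l ∈ T.erase k, ρ l ^ m l) * ρ k ^ (s + a i) := by
            rw [← h7, pow_add]
            simp only [mul_assoc, mul_left_comm, mul_comm]
        _ = (∏ l ∈ T.erase k, ρ l ^ m l) * ρ k ^ h * ρ k ^ y k := by
            rw [← hs, pow_add, mul_assoc]
        _ = (∏ l ∈ T.erase k, ρ l ^ y l) * ρ i ^ a k * ρ k ^ y k := by rw [hm3]
        _ = C * ρ i ^ a k := by
            rw [← h9]
            simp only [mul_assoc, mul_left_comm, mul_comm]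
    exact (mul_left_cancel h10).symm
  -- conclusion
  obtain ⟨u, hu⟩ := hu
  refine ⟨∏ l ∈ T, ρ l ^ u l, fun i hi => ?_⟩
  have h1 : (∏ l ∈ T, ρ l ^ u l) ^ a i = ∏ l ∈ T, ρ i ^ (u l * (a l : ℤ)) := by
    rw [← prod_pow]
    refine prod_congr rfl fun l hl => ?_
    rw [← zpow_natCast, ← zpow_mul, mul_comm (u l), mul_comm (u l), zpow_mul, zpow_mul, zpow_natCast,
      zpow_natCast, hpair i hi l hl]
  have h2 : ∏ l ∈ T, ρ i ^ (u l * (a l : ℤ)) = ρ i ^ (∑ l ∈ T, u l * (a l : ℤ)) :=
    prod_zpow_eq _ _ _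
  rw [h1, h2, hu, zpow_one]

end Pool.Agent.U479.VB
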